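import Pool.Agent.OPG.Stmts

set_option autoImplicit false

/-! Row CT3: the number of cuts in the window. -/

namespace Pool.Agent.OPG.H1

open Finset Pool.Agent.OPG

theorem ct3 (h1 : Ct1Stmt) (h2 : Ct2Stmt) (h3 : GapStmt) : Ct3Stmt := by
  classical
  intro M A s hM hA hs hAs hAs'
  have hs0 : 0 < s := by omega
  have hS100 : (100 : ℤ) ≤ (s : ℤ) ^ 2 := by
    have : (10 : ℤ) ≤ s := by exact_mod_cast hs
    nlinarith
  have hSpos : (0 : ℤ) < (s : ℤ) ^ 2 := by linarith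
  obtain ⟨c1, c2, c3⟩ := h2 (M : ℤ) (A : ℤ) ((s : ℤ) ^ 2) (by exact_mod_cast hA) hS100
    (by exact_mod_cast hAs) (by exact_mod_cast hAs')
  have hM2 : 2 ≤ M := by
    have : 1 ≤ s ^ 2 := Nat.one_le_pow _ _ hs0
    nlinarith
  set U := CU M (M + A) (M + 2 * A) with hU
  have hUmem : ∀ u ∈ U, M + A ≤ u ∧ u ≤ M + 2 * A ∧ Odd u ∧ Cut M u := by
    intro u hu
    rw [hU, CU, mem_filter, mem_Icc] at hu
    exact ⟨hu.1.1, hu.1.2, hu.2.1, hu.2.2⟩
  have hex : ∀ u ∈ U, ∃ t : ℤ, TT M A u t := by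
    intro u hu
    obtain ⟨a1, a2, a3, a4⟩ := hUmem u hu
    obtain ⟨t, ht1, ht2⟩ := h1 M u hM hM2 a3 (by omega) a4
    exact ⟨t, by exact_mod_cast a1, by exact_mod_cast a2, ht1, ht2⟩
  choose! τ hτ using hex
  have hτ0 : ∀ u ∈ U, 0 ≤ τ u ∧ τ u * (s : ℤ) ^ 2 ≤ 5 * A := fun u hu => c1 _ _ (hτ u hu)
  -- comparison of two elements
  have hcmp : ∀ u ∈ U, ∀ v ∈ U, v < u → v + 2 ≤ u ∧
      ((u : ℤ) - v) ≤ (τ u - τ v) * (s : ℤ) ^ 2 ∧ (τ u - τ v) * (s : ℤ) ^ 2 ≤ 5 * ((u : ℤ) - v) := by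
    intro u hu v hv hvu
    obtain ⟨-, -, ou, -⟩ := hUmem u hu
    obtain ⟨-, -, ov, -⟩ := hUmem v hv
    obtain ⟨x, hx⟩ := ou
    obtain ⟨y, hy⟩ := ov
    have h2' : v + 2 ≤ u := by omega
    refine ⟨h2', ?_⟩
    refine c2 (v : ℤ) (τ v) ((u : ℤ) - v) (τ u - τ v) (by omega) (hτ v hv) ?_
    have e1 : (v : ℤ) + ((u : ℤ) - v) = u := by ring
    have e2 : τ v + (τ u - τ v) = τ u := by ring
    rw [e1, e2]
    exact hτ u hu
  have hmono : ∀ u ∈ U, ∀ v ∈ U, v < u → τ v < τ u := by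
    intro u hu v hv hvu
    obtain ⟨a1, a2, -⟩ := hcmp u hu v hv hvu
    by_contra hcon
    push Not at hcon
    have : (τ u - τ v) * (s : ℤ) ^ 2 ≤ 0 := mul_nonpos_of_nonpos_of_nonneg (by linarith) hSpos.le
    omega
  set τ' : ℕ → ℕ := fun u => (τ u).toNat with hτ'
  have hτc : ∀ u ∈ U, ((τ' u : ℕ) : ℤ) = τ u := fun u hu => Int.toNat_of_nonneg (hτ0 u hu).1
  have hinj : Set.InjOn τ' U := by
    intro u hu v hv huv
    have e : τ u = τ v := by rw [← hτc u hu, ← hτc v hv, huv]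
    rcases lt_trichotomy u v with h | h | h
    · have := hmono v hv u hu h
      omega
    · exact h
    · have := hmono u hu v hv h
      omega
  set T := U.image τ' with hT
  have hcard : T.card = U.card := card_image_of_injOn hinj
  have hexu : ∀ t ∈ T, ∃ u, u ∈ U ∧ τ' u = t := by
    intro t ht
    rw [hT, mem_image] at ht
    exact ht
  choose! υ hυU hυ using hexu
  set R := 5 * A / s ^ 2 with hR
  have hTR : ∀ t ∈ T, t ≤ R := by
    intro t ht
    rw [hR, Nat.le_div_iff_mul_le (by positivity)]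
    have a1 := (hτ0 _ (hυU t ht)).2
    rw [← hτc _ (hυU t ht), hυ t ht] at a1
    exact_mod_cast a1
  have hsR : (0 : ℝ) < s := by exact_mod_cast hs0
  have hgap := h3 T R s ((s : ℝ) ^ 3 + 275 * A / (s : ℝ) ^ 4) (by omega) (by positivity) hTR ?_
  · rw [hcard] at hgap
    have hRr : (R : ℝ) ≤ 5 * A / (s : ℝ) ^ 2 := by
      rw [hR]
      refine (Nat.cast_div_le).trans (le_of_eq ?_)
      push_cast
      ring
    calc ((U.card : ℕ) : ℝ) ≤ R / s + 1 + s * ((s : ℝ) ^ 3 + 275 * A / (s : ℝ) ^ 4) := hgap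
      _ ≤ (5 * A / (s : ℝ) ^ 2) / s + 1 + s * ((s : ℝ) ^ 3 + 275 * A / (s : ℝ) ^ 4) := by
          gcongr
      _ = 1 + (s : ℝ) ^ 4 + 280 * A / (s : ℝ) ^ 3 := by
          field_simp
          ring
  · intro h hh1 hh2
    set F := T.filter (fun t => t + h ∈ T) with hF
    have hFmem : ∀ t ∈ F, t ∈ T ∧ t + h ∈ T := by
      intro t ht
      rw [hF, mem_filter] at ht
      exact ht
    set δ : ℕ → ℕ := fun t => υ (t + h) - υ t with hδ
    -- properties of δ
    have hδp : ∀ t ∈ F, υ t < υ (t + h) ∧ 2 ≤ δ t ∧ δ t ≤ h * s ^ 2 ∧ h * s ^ 2 ≤ 5 * δ t := by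
      intro t ht
      obtain ⟨t1, t2⟩ := hFmem t ht
      have e1 : τ (υ t) = t := by rw [← hτc _ (hυU t t1), hυ t t1]
      have e2 : τ (υ (t + h)) = (t + h : ℕ) := by rw [← hτc _ (hυU _ t2), hυ _ t2]
      have hlt : υ t < υ (t + h) := by
        rcases lt_trichotomy (υ t) (υ (t + h)) with h' | h' | h'
        · exact h'
        · exfalso
          rw [h', e2] at e1
          omega
        · exfalso
          have := hmono _ (hυU t t1) _ (hυU _ t2) h'
          omega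
      obtain ⟨b1, b2, b3⟩ := hcmp _ (hυU _ t2) _ (hυU t t1) hlt
      rw [e1, e2] at b2 b3
      have e3 : ((δ t : ℕ) : ℤ) = (υ (t + h) : ℤ) - υ t := by
        show ((υ (t + h) - υ t : ℕ) : ℤ) = _
        omega
      have e4 : (((t + h : ℕ) : ℤ) - (t : ℤ)) * (s : ℤ) ^ 2 = ((h * s ^ 2 : ℕ) : ℤ) := by
        push_cast; ring
      rw [← e3, e4] at b2 b3
      refine ⟨hlt, ?_, by exact_mod_cast b2, by exact_mod_cast b3⟩
      show 2 ≤ υ (t + h) - υ t
      omega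
    have hh0 : 0 < h := by omega
    obtain ⟨Bn, hBn⟩ : ∃ Bn : ℕ, Bn = 275 * A / (s ^ 6 * h) := ⟨_, rfl⟩
    have hfib : ∀ d ∈ F.image δ, (F.filter (fun t => δ t = d)).card ≤ Bn + 1 := by
      intro d hd
      have hne : (F.filter (fun t => δ t = d)).Nonempty := by
        rw [mem_image] at hd
        obtain ⟨t, ht, htd⟩ := hd
        exact ⟨t, mem_filter.mpr ⟨ht, htd⟩⟩
      obtain ⟨t0, ht0, hmin⟩ := exists_min_image _ (fun t => t) hne
      have hsub : F.filter (fun t => δ t = d) ⊆ Icc t0 (t0 + Bn) := by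
        intro t ht
        rw [mem_Icc]
        refine ⟨hmin t ht, ?_⟩
        rw [mem_filter] at ht ht0
        rcases eq_or_lt_of_le (hmin t (mem_filter.mpr ht)) with heq | hlt
        · omega
        obtain ⟨p1, p2⟩ := hFmem t ht.1
        obtain ⟨q1, q2⟩ := hFmem t0 ht0.1
        obtain ⟨r1, r2, r3, r4⟩ := hδp t ht.1
        obtain ⟨r1', r2', r3', r4'⟩ := hδp t0 ht0.1
        have e1 : τ (υ t) = t := by rw [← hτc _ (hυU t p1), hυ t p1]
        have e2 : τ (υ (t + h)) = (t + h : ℕ) := by rw [← hτc _ (hυU _ p2), hυ _ p2]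
        have e1' : τ (υ t0) = t0 := by rw [← hτc _ (hυU t0 q1), hυ t0 q1]
        have e2' : τ (υ (t0 + h)) = (t0 + h : ℕ) := by rw [← hτc _ (hυU _ q2), hυ _ q2]
        have huv : υ t0 < υ t := by
          rcases lt_trichotomy (υ t0) (υ t) with h' | h' | h'
          · exact h'
          · exfalso
            rw [h', e1] at e1'
            omega
          · exfalso
            have := hmono _ (hυU t0 q1) _ (hυU t p1) h'
            omega
        obtain ⟨b1, b2, b3⟩ := hcmp _ (hυU _ p1) _ (hυU t0 q1) huv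
        rw [e1, e1'] at b2 b3
        have dt : (υ t : ℤ) + (δ t : ℤ) = υ (t + h) := by
          show (υ t : ℤ) + ((υ (t + h) - υ t : ℕ) : ℤ) = _
          omega
        have dt0 : (υ t0 : ℤ) + (δ t : ℤ) = υ (t0 + h) := by
          rw [ht.2, ← ht0.2]
          show (υ t0 : ℤ) + ((υ (t0 + h) - υ t0 : ℕ) : ℤ) = _
          omega
        have k1 := hτ _ (hυU t p1)
        have k2 := hτ _ (hυU _ p2)
        have k3 := hτ _ (hυU t0 q1)
        have k4 := hτ _ (hυU _ q2)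
        rw [e1] at k1
        rw [e2, ← dt] at k2
        rw [e1'] at k3
        rw [e2', ← dt0] at k4
        push_cast at k2 k4
        have b4 := c3 (υ t : ℤ) (t : ℤ) (υ t0 : ℤ) (t0 : ℤ) (δ t : ℤ) (h : ℤ) (by exact_mod_cast r2)
          (by exact_mod_cast b1) k1 k2 k3 k4
        have r4z : (h : ℤ) * (s : ℤ) ^ 2 ≤ 5 * (δ t : ℤ) := by exact_mod_cast r4
        -- (t - t0) * (s^6 * h) ≤ 275 A
        have key : ((t : ℤ) - t0) * ((s : ℤ) ^ 6 * h) ≤ 275 * A := by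
          have m0 : (0 : ℤ) ≤ (t : ℤ) - t0 := by omega
          have m1 : ((t : ℤ) - t0) * (s : ℤ) ^ 2 * ((s : ℤ) ^ 2 * ((h : ℤ) * (s : ℤ) ^ 2)) ≤
              ((t : ℤ) - t0) * (s : ℤ) ^ 2 * ((s : ℤ) ^ 2 * (5 * (δ t : ℤ))) := by
            apply mul_le_mul_of_nonneg_left _ (by positivity)
            exact mul_le_mul_of_nonneg_left r4z (by positivity)
          have m2 : ((t : ℤ) - t0) * (s : ℤ) ^ 2 * ((s : ℤ) ^ 2 * (5 * (δ t : ℤ))) ≤
              5 * ((υ t : ℤ) - υ t0) * ((s : ℤ) ^ 2 * (5 * (δ t : ℤ))) :=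
            mul_le_mul_of_nonneg_right b3 (by positivity)
          have e5 : ((t : ℤ) - t0) * ((s : ℤ) ^ 6 * h) =
              ((t : ℤ) - t0) * (s : ℤ) ^ 2 * ((s : ℤ) ^ 2 * ((h : ℤ) * (s : ℤ) ^ 2)) := by ring
          have e6 : 5 * ((υ t : ℤ) - υ t0) * ((s : ℤ) ^ 2 * (5 * (δ t : ℤ))) =
              25 * (((υ t : ℤ) - υ t0) * (δ t : ℤ) * (s : ℤ) ^ 2) := by ring
          rw [e5]
          linarith
        have key2 : (t - t0) * (s ^ 6 * h) ≤ 275 * A := by
          zify [hlt.le]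
          exact key
        have key3 : t - t0 ≤ Bn := by
          rw [hBn, Nat.le_div_iff_mul_le (by positivity)]
          exact key2
        omega
      calc (F.filter (fun t => δ t = d)).card ≤ (Icc t0 (t0 + Bn)).card := card_le_card hsub
        _ = Bn + 1 := by rw [Nat.card_Icc]; omega
    have hF1 := card_le_mul_card_image F (Bn + 1) hfib
    have hF2 : (F.image δ).card ≤ h * s ^ 2 := by
      have hsub : F.image δ ⊆ Icc 1 (h * s ^ 2) := by
        intro d hd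
        rw [mem_image] at hd
        obtain ⟨t, ht, rfl⟩ := hd
        obtain ⟨-, r2, r3, -⟩ := hδp t ht
        rw [mem_Icc]
        exact ⟨by omega, r3⟩
      calc (F.image δ).card ≤ (Icc 1 (h * s ^ 2)).card := card_le_card hsub
        _ = h * s ^ 2 := by rw [Nat.card_Icc]; omega
    have hF3 : F.card ≤ (Bn + 1) * (h * s ^ 2) := hF1.trans (Nat.mul_le_mul_left _ hF2)
    have hhR : (0 : ℝ) < h := by exact_mod_cast hh0
    have hhs : (h : ℝ) ≤ s := by exact_mod_cast hh2.le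
    have hBr : (Bn : ℝ) ≤ 275 * A / ((s : ℝ) ^ 6 * h) := by
      rw [hBn]
      refine (Nat.cast_div_le).trans (le_of_eq ?_)
      push_cast
      ring
    calc ((F.card : ℕ) : ℝ) ≤ (((Bn + 1) * (h * s ^ 2) : ℕ) : ℝ) := by exact_mod_cast hF3
      _ = ((Bn : ℝ) + 1) * (h * (s : ℝ) ^ 2) := by push_cast; ring
      _ ≤ (275 * A / ((s : ℝ) ^ 6 * h) + 1) * (h * (s : ℝ) ^ 2) := by gcongr
      _ = h * (s : ℝ) ^ 2 + 275 * A / (s : ℝ) ^ 4 := by
          field_simp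
          ring
      _ ≤ s * (s : ℝ) ^ 2 + 275 * A / (s : ℝ) ^ 4 := by gcongr
      _ = (s : ℝ) ^ 3 + 275 * A / (s : ℝ) ^ 4 := by ring

end Pool.Agent.OPG.H1
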